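import Mathlib

/-! Unconditional expansions from blocks all of whose subsums are controlled. -/

namespace Pool.Agent.FS.Uncond459

open Filter Finset Topology

theorem exists_uncond {V : Type*} [AddCommGroup V] [Module ℂ V] {q : Seminorm ℂ V} {x : ℕ → V}
    {K : ℝ} (hK : 0 ≤ K)
    (hd : ∀ (h : V) (ε : ℝ), 0 < ε → ∀ N₀ : ℕ, ∃ (N₁ : ℕ) (c : ℕ → ℂ), N₀ < N₁ ∧
      q (h - ∑ n ∈ Ico N₀ N₁, c n • x n) ≤ ε ∧
      ∀ E ⊆ Ico N₀ N₁, q (∑ n ∈ E, c n • x n) ≤ K * q h + ε) (f : V) :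
    ∃ c : ℕ → ℂ, ∀ ε : ℝ, 0 < ε → ∃ F : Finset ℕ, ∀ E, F ⊆ E →
      q (f - ∑ n ∈ E, c n • x n) ≤ ε := by
  classical
  have all := fun (h : V) (j N₀ : ℕ) => hd h ((1 / 2) ^ j) (by positivity) N₀
  choose nx cx hlt hp hs using all
  let st : ℕ → V × ℕ := fun j => Nat.rec (f, 0)
    (fun i s => (s.1 - ∑ n ∈ Ico s.2 (nx s.1 i s.2), cx s.1 i s.2 n • x n, nx s.1 i s.2)) j
  obtain ⟨F, N, F0, N0, hF, hN⟩ : ∃ (F : ℕ → V) (N : ℕ → ℕ), F 0 = f ∧ N 0 = 0 ∧
      (∀ j, F (j + 1) = F j - ∑ n ∈ Ico (N j) (nx (F j) j (N j)), cx (F j) j (N j) n • x n) ∧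
      ∀ j, N (j + 1) = nx (F j) j (N j) :=
    ⟨fun j => (st j).1, fun j => (st j).2, rfl, rfl, fun _ => rfl, fun _ => rfl⟩
  have hsm : StrictMono N := strictMono_nat_of_lt_succ fun j => by rw [hN]; exact hlt _ _ _
  have ex : ∀ n, ∃ j, N j ≤ n ∧ n < N (j + 1) := fun n => by
    induction n with
    | zero => exact ⟨0, N0.le, N0.ge.trans_lt (hsm (Nat.lt_succ_self 0))⟩
    | succ n ih =>
      obtain ⟨j, h1, h2⟩ := ih
      rcases Nat.lt_or_ge (n + 1) (N (j + 1)) with h | h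
      · exact ⟨j, by omega, h⟩
      · have := hsm (Nat.lt_succ_self (j + 1))
        exact ⟨j + 1, h, by simp only [Nat.succ_eq_add_one] at this; omega⟩
  choose J hJ1 hJ2 using ex
  obtain ⟨c, hc⟩ : ∃ c : ℕ → ℂ, ∀ j, ∀ n ∈ Ico (N j) (N (j + 1)), c n = cx (F j) j (N j) n := by
    refine ⟨fun n => cx (F (J n)) (J n) (N (J n)) n, fun j n hn => ?_⟩
    rw [mem_Ico] at hn
    have a1 : J n < j + 1 := hsm.lt_iff_lt.1 ((hJ1 n).trans_lt hn.2)
    have a2 : j < J n + 1 := hsm.lt_iff_lt.1 (hn.1.trans_lt (hJ2 n))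
    have : J n = j := by omega
    simp only [this]
  have res : ∀ j, F j = f - ∑ n ∈ range (N j), c n • x n := fun j => by
    induction j with
    | zero => simp [F0, N0]
    | succ j ih =>
      rw [hF, ← hN, ← sum_range_add_sum_Ico _ (hsm (Nat.lt_succ_self j)).le, ← sub_sub, ← ih]
      exact congrArg _ (sum_congr rfl fun n hn => by rw [hc j n hn])
  have small : ∀ j, q (F (j + 1)) ≤ (1 / 2) ^ j := fun j => by rw [hF]; exact hp _ _ _
  have blk : ∀ j, ∀ E ⊆ Ico (N (j + 1)) (N (j + 1 + 1)),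
      q (∑ n ∈ E, c n • x n) ≤ (2 * K + 1) * (1 / 2) ^ (j + 1) := fun j E hE => by
    have a1 := hs (F (j + 1)) (j + 1) (N (j + 1)) E (by rw [← hN]; exact hE)
    have a2 := mul_le_mul_of_nonneg_left (small j) hK
    rw [sum_congr rfl fun n hn => by rw [hc (j + 1) n (hE hn)]]
    rw [pow_succ] at a1 ⊢
    linarith
  have tail : ∀ j m, ∀ E ⊆ Ico (N (j + 1)) (N (j + m + 1)),
      q (∑ n ∈ E, c n • x n) ≤ (2 * K + 1) * ((1 / 2) ^ j - (1 / 2) ^ (j + m)) := fun j m => by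
    induction m with
    | zero =>
      intro E hE
      rw [add_zero, Ico_self, subset_empty] at hE
      simp [hE]
    | succ m ih =>
      intro E hE
      rw [← sum_filter_add_sum_filter_not E (· < N (j + m + 1))]
      have a1 := ih (E.filter (· < N (j + m + 1))) fun n hn => by
        rw [mem_filter] at hn
        exact mem_Ico.2 ⟨(mem_Ico.1 (hE hn.1)).1, hn.2⟩
      have a2 := blk (j + m) (E.filter fun n => ¬ n < N (j + m + 1)) fun n hn => by
        rw [mem_filter] at hn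
        exact mem_Ico.2 ⟨not_lt.1 hn.2, (mem_Ico.1 (hE hn.1)).2⟩
      refine (map_add_le_add q _ _).trans ?_
      rw [← add_assoc j m 1]
      rw [pow_succ] at a2 ⊢
      linarith
  refine ⟨c, fun ε hε => ?_⟩
  obtain ⟨j, hj⟩ := exists_pow_lt_of_lt_one (show 0 < ε / (2 * K + 2) by positivity)
    (show (1 / 2 : ℝ) < 1 by norm_num)
  refine ⟨range (N (j + 1)), fun E hE => ?_⟩
  obtain ⟨m, hm⟩ := E.exists_nat_subset_range
  have a1 := tail j m (E \ range (N (j + 1))) fun n hn => by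
    rw [Finset.mem_sdiff, mem_range] at hn
    have b1 := mem_range.1 (hm hn.1)
    have b2 : j + m + 1 ≤ N (j + m + 1) := hsm.le_apply
    exact mem_Ico.2 ⟨not_lt.1 hn.2, by omega⟩
  rw [← sum_sdiff hE, add_comm, ← sub_sub, ← res]
  refine (map_sub_le_add q _ _).trans ?_
  rw [lt_div_iff₀ (by positivity)] at hj
  have a2 : 0 ≤ (2 * K + 1) * (1 / 2 : ℝ) ^ (j + m) := by positivity
  nlinarith [small j]

end Pool.Agent.FS.Uncond459
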