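import Pool.Agent.Lib.MP_459ac8_an.Y42C

/-! A Bessel type bound for weighted sums of Cauchy kernels in the Hilbert case. -/

namespace Pool.Agent.FS.Uncond459

open Pool.Agent.Lib.MP_459ac8_an Pool.Agent.Lib.MP_459ac8_an.Y42
open scoped ENNReal Real Topology ComplexConjugate
open MeasureTheory Metric Complex Filter Finset

theorem avg_eq {G H : ℂ → ℂ} (hG : DifferentiableOn ℂ G (ball 0 1))
    (hH : ContinuousOn H (ball 0 1)) (β : ℝ) {r : ℝ} (hr : r ∈ Set.Ioo (0 : ℝ) 1) :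
    CircleIntegrable (fun z => (G z).re + β • ‖H z‖ ^ (2 : ℝ)) 0 r ∧
      Real.circleAverage (fun z => (G z).re + β • ‖H z‖ ^ (2 : ℝ)) 0 r =
        (G 0).re + β * mean 2 H r := by
  have h1 := abs_lt_one_of_mem hr
  have c1 : ContinuousOn (fun z => (G z).re) (ball 0 1) :=
    Complex.continuous_re.comp_continuousOn hG.continuousOn
  have c2 : ContinuousOn (fun z => β • ‖H z‖ ^ (2 : ℝ)) (ball 0 1) :=
    (contOn_pow hH zero_le_two).const_smul β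
  refine ⟨circInt (c1.add c2) h1, ?_⟩
  rw [Real.circleAverage_fun_add (circInt c1 h1) (circInt c2 h1), avg_re hG hr,
    Real.circleAverage_fun_smul]
  rfl

theorem bes_pos (B : Finset ℕ) (w : ℕ → ℂ) (hw : ∀ n, ‖w n‖ < 1) (d t : ℕ → ℝ)
    (hd : ∀ n ∈ B, 0 ≤ d n) (ht0 : ∀ n ∈ B, 0 ≤ t n) {τ δ : ℝ} (ht : ∀ n ∈ B, t n ≤ τ)
    (hδ : 0 < δ) {r : ℝ} (hr : r ∈ Set.Ioo (0 : ℝ) 1) :
    mean 2 (fun z => ∑ n ∈ B, ((d n * t n : ℝ) : ℂ) * (1 - w n * z)⁻¹) r ≤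
      2 * ∑ n ∈ B, d n * t n ^ 2 + 2 * τ ^ 2 * δ + 2 * τ ^ 2 * (1 + 1 / δ) *
        mean 2 (fun z => ∑ n ∈ B, ((d n : ℝ) : ℂ) * (1 - w n * z)⁻¹ - 1) r := by
  have h1 := abs_lt_one_of_mem hr
  have dif : ∀ s : ℕ → ℝ, DifferentiableOn ℂ
      (fun z => ∑ n ∈ B, ((s n : ℝ) : ℂ) * (1 - w n * z)⁻¹) (ball 0 1) := fun s =>
    DifferentiableOn.fun_sum fun n _ => (diffOn_kernel (hw n)).const_mul _
  obtain ⟨i1, i2⟩ := avg_eq (G := fun z =>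
      2 * (∑ n ∈ B, ((d n * t n ^ 2 : ℝ) : ℂ) * (1 - w n * z)⁻¹) -
        (∑ n ∈ B, ((d n * t n : ℝ) : ℂ) * (1 - w n * z)⁻¹) ^ 2 + ((2 * τ ^ 2 * δ : ℝ) : ℂ))
    (H := fun z => ∑ n ∈ B, ((d n : ℝ) : ℂ) * (1 - w n * z)⁻¹ - 1)
    (((((dif _).const_mul 2).sub ((dif _).pow 2))).add_const _)
    ((dif d).continuousOn.sub continuousOn_const) (2 * τ ^ 2 * (1 + 1 / δ)) hr
  refine (Real.circleAverage_mono (circInt (contOn_pow (dif _).continuousOn zero_le_two) h1) i1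
    fun z hz => ?_).trans (i2.le.trans ?_)
  · have hz' := sphere_sub_ball h1 hz
    have P0 : ∀ n, 0 ≤ ((1 - w n * z)⁻¹).re := fun n =>
      le_trans (mul_nonneg (by linarith [hw n]) (by positivity)) (re_kernel (w n) hz')
    have re : ∀ s : ℕ → ℝ, (∑ n ∈ B, ((s n : ℝ) : ℂ) * (1 - w n * z)⁻¹).re =
        ∑ n ∈ B, s n * ((1 - w n * z)⁻¹).re := fun s => by
      rw [re_sum]
      exact sum_congr rfl fun n _ => re_ofReal_mul _ _
    have cs := sum_sq_le_sum_mul_sum_of_sq_le_mul B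
      (r := fun n => d n * t n * ((1 - w n * z)⁻¹).re) (f := fun n => d n * ((1 - w n * z)⁻¹).re)
      (g := fun n => d n * t n ^ 2 * ((1 - w n * z)⁻¹).re)
      (fun n hn => mul_nonneg (hd n hn) (P0 n))
      (fun n hn => mul_nonneg (mul_nonneg (hd n hn) (sq_nonneg _)) (P0 n))
      fun n _ => le_of_eq (by ring)
    have p0 : 0 ≤ ∑ n ∈ B, d n * t n ^ 2 * ((1 - w n * z)⁻¹).re :=
      sum_nonneg fun n hn => mul_nonneg (mul_nonneg (hd n hn) (sq_nonneg _)) (P0 n)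
    have p1 : ∑ n ∈ B, d n * t n ^ 2 * ((1 - w n * z)⁻¹).re ≤
        τ ^ 2 * ∑ n ∈ B, d n * ((1 - w n * z)⁻¹).re := by
      rw [mul_sum]
      refine sum_le_sum fun n hn => ?_
      have := mul_le_mul_of_nonneg_left (pow_le_pow_left₀ (ht0 n hn) (ht n hn) 2)
        (mul_nonneg (hd n hn) (P0 n))
      linarith
    rw [← re, ← re, ← re] at cs
    rw [← re] at p0
    rw [← re, ← re] at p1
    generalize (∑ n ∈ B, ((d n * t n : ℝ) : ℂ) * (1 - w n * z)⁻¹) = F at *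
    generalize (∑ n ∈ B, ((d n * t n ^ 2 : ℝ) : ℂ) * (1 - w n * z)⁻¹) = G at *
    generalize (∑ n ∈ B, ((d n : ℝ) : ℂ) * (1 - w n * z)⁻¹) = Φ at *
    have y1 : Φ.re - 1 ≤ ‖Φ - 1‖ := by simpa using Complex.re_le_norm (Φ - 1)
    have y0 := norm_nonneg (Φ - 1)
    generalize ‖Φ - 1‖ = y at *
    have y2 : y ≤ δ + 1 / δ * y ^ 2 := by
      rw [one_div, inv_mul_eq_div, ← sub_le_iff_le_add', le_div_iff₀ hδ]
      nlinarith [sq_nonneg (y - δ)]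
    have e1 : (2 * G - F ^ 2 + ((2 * τ ^ 2 * δ : ℝ) : ℂ)).re =
        2 * G.re - (F.re ^ 2 - F.im ^ 2) + 2 * τ ^ 2 * δ := by
      rw [add_re, sub_re, ofReal_re, pow_two, mul_re, mul_re]
      simp only [re_ofNat, im_ofNat]
      ring
    rw [e1, Real.rpow_two, Real.rpow_two, Complex.sq_norm, normSq_apply, smul_eq_mul]
    have z1 : Φ.re * G.re ≤ (1 + y) * G.re := mul_le_mul_of_nonneg_right (by linarith) p0
    have z2 : G.re ≤ τ ^ 2 * (1 + y) :=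
      p1.trans (mul_le_mul_of_nonneg_left (by linarith) (sq_nonneg τ))
    have z3 := mul_le_mul_of_nonneg_left z2 y0
    have z4 := mul_le_mul_of_nonneg_left y2 (sq_nonneg τ)
    nlinarith
  · simp only [mul_zero, sub_zero, inv_one, mul_one]
    rw [← ofReal_sum, ← ofReal_sum, ← ofReal_pow, ← ofReal_ofNat, ← ofReal_mul, ← ofReal_sub,
      ← ofReal_add, ofReal_re]
    have := sq_nonneg (∑ n ∈ B, d n * t n)
    linarith

theorem four_parts {V : Type*} [AddCommGroup V] [Module ℂ V] (d : ℝ) (t : ℂ) (v : V) :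
    ((d : ℂ) * t) • v = ((d * max t.re 0 : ℝ) : ℂ) • v - ((d * max (-t.re) 0 : ℝ) : ℂ) • v +
      I • (((d * max t.im 0 : ℝ) : ℂ) • v - ((d * max (-t.im) 0 : ℝ) : ℂ) • v) := by
  rw [← sub_smul, ← sub_smul, smul_smul, ← add_smul, ← ofReal_sub, ← ofReal_sub, ← mul_sub,
    ← mul_sub, max_zero_sub_max_neg_zero_eq_self, max_zero_sub_max_neg_zero_eq_self,
    ofReal_mul, ofReal_mul, mul_left_comm, ← mul_add, mul_comm I, re_add_im]

variable {Λ : ℕ → ℂ} (hΛ : ∀ n, ‖Λ n‖ < 1)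

theorem bes_real (B : Finset ℕ) (d t : ℕ → ℝ) (hd : ∀ n ∈ B, 0 ≤ d n) (ht0 : ∀ n ∈ B, 0 ≤ t n)
    {τ δ κ S : ℝ} (ht : ∀ n ∈ B, t n ≤ τ) (hδ : 0 < δ) (hS : ∑ n ∈ B, d n * t n ^ 2 ≤ S)
    (hκ : hq 2 one_le_two (one 2 one_le_two - ∑ n ∈ B, (d n : ℂ) • kr hΛ 2 one_le_two n) ≤ κ) :
    hq 2 one_le_two (∑ n ∈ B, ((d n * t n : ℝ) : ℂ) • kr hΛ 2 one_le_two n) ≤
      √(2 * S + 2 * τ ^ 2 * δ + 2 * τ ^ 2 * (1 + 1 / δ) * κ ^ 2) := by
  have hw : ∀ n, ‖conj (Λ n)‖ < 1 := fun n => by rw [Complex.norm_conj]; exact hΛ n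
  refine hq_le _ _ (Real.sqrt_nonneg _) ?_
  rw [Real.sqrt_eq_rpow]
  refine hardyNorm_le_of_mean two_pos (Subtype.property _ : _ ∈ Hp 2 one_le_two).1.continuousOn
    fun r hr => ?_
  have h1 := abs_lt_one_of_mem hr
  have a1 := bes_pos B _ hw d t hd ht0 ht hδ hr
  have m := (one 2 one_le_two - ∑ n ∈ B, (d n : ℂ) • kr hΛ 2 one_le_two n).2
  have a2 := mean_le_of_hardyNorm two_pos m.1.continuousOn m.2 hr
  rw [← hq_apply, Real.rpow_two] at a2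
  have a3 := pow_le_pow_left₀ (apply_nonneg _ _) hκ 2
  have e1 : mean 2 (fun z => ∑ n ∈ B, ((d n : ℝ) : ℂ) * (1 - conj (Λ n) * z)⁻¹ - 1) r =
      mean 2 ((one 2 one_le_two - ∑ n ∈ B, (d n : ℂ) • kr hΛ 2 one_le_two n :
        Hp 2 one_le_two) : ℂ → ℂ) r :=
    Real.circleAverage_congr_sphere fun z hz => by
      have hz' := sphere_sub_ball h1 hz
      simp only
      rw [Submodule.coe_sub, Pi.sub_apply, sum_kr hΛ _ _ _ hz', one_apply _ hz', norm_sub_rev]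
  have e2 : mean 2 ((∑ n ∈ B, ((d n * t n : ℝ) : ℂ) • kr hΛ 2 one_le_two n :
        Hp 2 one_le_two) : ℂ → ℂ) r =
      mean 2 (fun z => ∑ n ∈ B, ((d n * t n : ℝ) : ℂ) * (1 - conj (Λ n) * z)⁻¹) r :=
    Real.circleAverage_congr_sphere fun z hz => by
      simp only
      rw [sum_kr hΛ _ _ _ (sphere_sub_ball h1 hz)]
  rw [e1] at a1
  rw [e2]
  have a4 := mul_le_mul_of_nonneg_left (a2.trans a3)
    (show 0 ≤ 2 * τ ^ 2 * (1 + 1 / δ) by positivity)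
  linarith

theorem bes (B : Finset ℕ) (d : ℕ → ℝ) (t : ℕ → ℂ) (hd : ∀ n ∈ B, 0 ≤ d n)
    {τ δ κ S : ℝ} (ht : ∀ n ∈ B, ‖t n‖ ≤ τ) (hδ : 0 < δ) (hS : ∑ n ∈ B, d n * ‖t n‖ ^ 2 ≤ S)
    (hκ : hq 2 one_le_two (one 2 one_le_two - ∑ n ∈ B, (d n : ℂ) • kr hΛ 2 one_le_two n) ≤ κ) :
    hq 2 one_le_two (∑ n ∈ B, ((d n : ℂ) * t n) • kr hΛ 2 one_le_two n) ≤
      4 * √(2 * S + 2 * τ ^ 2 * δ + 2 * τ ^ 2 * (1 + 1 / δ) * κ ^ 2) := by
  have key : ∀ s : ℕ → ℝ, (∀ n, |s n| ≤ ‖t n‖) →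
      hq 2 one_le_two (∑ n ∈ B, ((d n * max (s n) 0 : ℝ) : ℂ) • kr hΛ 2 one_le_two n) ≤
        √(2 * S + 2 * τ ^ 2 * δ + 2 * τ ^ 2 * (1 + 1 / δ) * κ ^ 2) := fun s hs => by
    have b : ∀ n, max (s n) 0 ≤ ‖t n‖ := fun n =>
      max_le ((le_abs_self _).trans (hs n)) (norm_nonneg _)
    exact bes_real hΛ B d _ hd (fun n _ => le_max_right _ _) (fun n hn => (b n).trans (ht n hn)) hδ
      (le_trans (sum_le_sum fun n hn => mul_le_mul_of_nonneg_left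
        (pow_le_pow_left₀ (le_max_right _ _) (b n) 2) (hd n hn)) hS) hκ
  have k1 := key (fun n => (t n).re) fun n => abs_re_le_norm _
  have k2 := key (fun n => -(t n).re) fun n => by rw [abs_neg]; exact abs_re_le_norm _
  have k3 := key (fun n => (t n).im) fun n => abs_im_le_norm _
  have k4 := key (fun n => -(t n).im) fun n => by rw [abs_neg]; exact abs_im_le_norm _
  have e : ∑ n ∈ B, ((d n : ℂ) * t n) • kr hΛ 2 one_le_two n =
      (∑ n ∈ B, ((d n * max (t n).re 0 : ℝ) : ℂ) • kr hΛ 2 one_le_two n -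
        ∑ n ∈ B, ((d n * max (-(t n).re) 0 : ℝ) : ℂ) • kr hΛ 2 one_le_two n) +
      I • (∑ n ∈ B, ((d n * max (t n).im 0 : ℝ) : ℂ) • kr hΛ 2 one_le_two n -
        ∑ n ∈ B, ((d n * max (-(t n).im) 0 : ℝ) : ℂ) • kr hΛ 2 one_le_two n) := by
    rw [← sum_sub_distrib, ← sum_sub_distrib, smul_sum, ← sum_add_distrib]
    exact sum_congr rfl fun n _ =>
      four_parts (V := Hp 2 one_le_two) (d n) (t n) (kr hΛ 2 one_le_two n)
  rw [e]
  refine (map_add_le_add _ _ _).trans ?_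
  rw [map_smul_eq_mul, norm_I, one_mul]
  linarith [map_sub_le_add (hq 2 one_le_two)
    (∑ n ∈ B, ((d n * max (t n).re 0 : ℝ) : ℂ) • kr hΛ 2 one_le_two n)
    (∑ n ∈ B, ((d n * max (-(t n).re) 0 : ℝ) : ℂ) • kr hΛ 2 one_le_two n),
    map_sub_le_add (hq 2 one_le_two)
    (∑ n ∈ B, ((d n * max (t n).im 0 : ℝ) : ℂ) • kr hΛ 2 one_le_two n)
    (∑ n ∈ B, ((d n * max (-(t n).im) 0 : ℝ) : ℂ) • kr hΛ 2 one_le_two n)]

end Pool.Agent.FS.Uncond459
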