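import Pool.Agent.FS.Uncond459.B

/-! Moments of a turn, and two quadratic estimates for polynomials. -/

namespace Pool.Agent.FS.Uncond459

open Pool.Agent.Lib.MP_459ac8_an Pool.Agent.Lib.MP_459ac8_an.Y42
open scoped ENNReal Real Topology ComplexConjugate
open MeasureTheory Metric Complex Filter Finset

theorem nsq (a v : ℂ) : ‖a + v‖ ^ 2 = ‖a‖ ^ 2 + 2 * (conj a * v).re + ‖v‖ ^ 2 := by
  simp only [Complex.sq_norm, normSq_apply, add_re, add_im, mul_re, conj_re, conj_im]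
  ring

theorem poly_succ (n : ℕ) (b : ℕ → ℂ) (z : ℂ) :
    ∑ j ∈ range (n + 1), b j * z ^ j = b 0 + z * ∑ j ∈ range n, b (j + 1) * z ^ j := by
  rw [sum_range_succ', pow_zero, mul_one, add_comm, mul_sum]
  exact congrArg _ (sum_congr rfl fun j _ => by ring)

theorem mom {ρ θ : ℕ → ℝ} {η : ℝ} {a b : ℕ} (h : Tn ρ θ η a b) {l : ℕ} (hl : 1 ≤ l)
    (hη : l * η ≤ 1) :
    ‖∑ n ∈ Ico a b, ((θ (n + 1) - θ n : ℝ) : ℂ) * (circleMap 0 (ρ n) (θ n))⁻¹ ^ l‖ ≤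
      2 * π * (l * η + ((ρ a)⁻¹ ^ l - 1)) := by
  have hl' : (0 : ℝ) < l := by exact_mod_cast hl
  obtain ⟨e, he⟩ : ∃ e : ℕ → ℂ, ∀ n, e n = exp (((-(l * θ n) : ℝ) : ℂ) * I) := ⟨_, fun _ => rfl⟩
  have e1 : ∀ n, ‖e n‖ = 1 := fun n => by rw [he]; exact norm_exp_ofReal_mul_I _
  have e2 : e b = e a := by
    rw [he, he, h.full, show ((-(l * (θ a + 2 * π)) : ℝ) : ℂ) * I =
      ((-(l * θ a) : ℝ) : ℂ) * I - l * (2 * π * I) by push_cast; ring, exp_sub,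
      exp_nat_mul_two_pi_mul_I, div_one]
  have e3 : ∀ n ∈ Ico a b, ‖e (n + 1) - e n + l * I * (((θ (n + 1) - θ n : ℝ) : ℂ) * e n)‖ ≤
      l * (l * η) * (θ (n + 1) - θ n) := fun n hn => by
    have g1 := h.up n hn
    have g2 : θ (n + 1) - θ n ≤ η :=
      (h.le n hn).trans (mul_le_of_le_one_right h.nn (by linarith [h.pos n]))
    have g3 : ‖((-(l * (θ (n + 1) - θ n)) : ℝ) : ℂ) * I‖ = l * (θ (n + 1) - θ n) := by
      rw [norm_mul, norm_I, mul_one, Complex.norm_real, norm_neg,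
        Real.norm_of_nonneg (by positivity)]
    have g4 := mul_le_mul_of_nonneg_left g2 hl'.le
    have g5 := norm_exp_sub_one_sub_id_le (g3.le.trans (g4.trans hη))
    have g6 : e (n + 1) = e n * exp (((-(l * (θ (n + 1) - θ n)) : ℝ) : ℂ) * I) := by
      rw [he, he, ← exp_add]
      exact congrArg _ (by push_cast; ring)
    rw [g3] at g5
    rw [g6, show e n * exp (((-(l * (θ (n + 1) - θ n)) : ℝ) : ℂ) * I) - e n +
      l * I * (((θ (n + 1) - θ n : ℝ) : ℂ) * e n) = e n *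
        (exp (((-(l * (θ (n + 1) - θ n)) : ℝ) : ℂ) * I) - 1 -
          ((-(l * (θ (n + 1) - θ n)) : ℝ) : ℂ) * I) by push_cast; ring, norm_mul, e1, one_mul]
    have g7 := mul_le_mul_of_nonneg_left g4 (mul_nonneg hl'.le g1)
    nlinarith
  have e4 := (norm_sum_le _ _).trans (sum_le_sum e3)
  rw [sum_add_distrib, sum_Ico_sub _ h.hab, e2, sub_self, zero_add, ← mul_sum, ← mul_sum, h.total,
    norm_mul, norm_mul, norm_I, mul_one, Complex.norm_natCast, mul_assoc] at e4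
  have e5 := le_of_mul_le_mul_left e4 hl'
  have e6 : ∀ n ∈ Ico a b, ‖((θ (n + 1) - θ n : ℝ) : ℂ) * (circleMap 0 (ρ n) (θ n))⁻¹ ^ l -
      ((θ (n + 1) - θ n : ℝ) : ℂ) * e n‖ ≤ ((ρ a)⁻¹ ^ l - 1) * (θ (n + 1) - θ n) := fun n hn => by
    have g1 : (circleMap 0 (ρ n) (θ n))⁻¹ ^ l = (((ρ n)⁻¹ ^ l : ℝ) : ℂ) * e n := by
      rw [circleMap_zero, mul_inv, mul_pow, ← exp_neg, ← exp_nat_mul, he]
      push_cast
      exact congrArg _ (congrArg _ (by ring))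
    have g2 : 1 ≤ (ρ n)⁻¹ ^ l := one_le_pow₀ ((one_le_inv₀ (h.pos n)).2 (h.lt n).le)
    have g3 : (ρ n)⁻¹ ^ l ≤ (ρ a)⁻¹ ^ l := pow_le_pow_left₀ (inv_nonneg.2 (h.pos n).le)
      (inv_anti₀ (h.pos a) (h.mono (mem_Ico.1 hn).1)) l
    rw [g1, ← mul_sub, ← sub_one_mul, norm_mul, norm_mul, e1, mul_one, ← ofReal_one, ← ofReal_sub,
      Complex.norm_real, Complex.norm_real, Real.norm_of_nonneg (h.up n hn),
      Real.norm_of_nonneg (by linarith), mul_comm]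
    exact mul_le_mul_of_nonneg_right (by linarith) (h.up n hn)
  have e7 := (norm_sum_le _ _).trans (sum_le_sum e6)
  rw [sum_sub_distrib, ← mul_sum, h.total] at e7
  have e8 := norm_le_norm_add_norm_sub' (∑ n ∈ Ico a b, ((θ (n + 1) - θ n : ℝ) : ℂ) *
    (circleMap 0 (ρ n) (θ n))⁻¹ ^ l) (∑ n ∈ Ico a b, ((θ (n + 1) - θ n : ℝ) : ℂ) * e n)
  linarith

theorem sq_bound (B : ℕ → Finset ℕ) (d : ℕ → ℕ → ℝ) (u : ℕ → ℂ) (R : ℕ → ℝ)
    (hd : ∀ k, ∀ n ∈ B k, 0 ≤ d k n) (h1 : ∀ k, ∑ n ∈ B k, d k n = 1)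
    (hu : ∀ k, ∀ n ∈ B k, ‖u n‖ ≤ R k) (hR : Tendsto R atTop (𝓝 1))
    (hm : ∀ l, Tendsto (fun k => ∑ n ∈ B k, (d k n : ℂ) * u n ^ (l + 1)) atTop (𝓝 0))
    (N : ℕ) : ∀ b : ℕ → ℂ, ∃ s : ℕ → ℝ, Tendsto s atTop (𝓝 (∑ j ∈ range N, ‖b j‖ ^ 2)) ∧
      ∀ k, ∑ n ∈ B k, d k n * ‖∑ j ∈ range N, b j * u n ^ j‖ ^ 2 ≤ s k := by
  induction N with
  | zero => exact fun b => ⟨fun _ => 0, by simp, fun k => by simp⟩
  | succ N ih =>
    intro b
    obtain ⟨s, s1, s2⟩ := ih fun j => b (j + 1)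
    have t1 := tendsto_finsetSum (range N) fun j _ => (hm j).const_mul (b (j + 1))
    have t2 := ((Complex.continuous_re.tendsto _).comp (t1.const_mul (conj (b 0)))).const_mul 2
    have t3 := (t2.const_add (‖b 0‖ ^ 2)).add ((hR.pow 2).mul s1)
    refine ⟨_, t3.congr' (EventuallyEq.refl _ _) |>.trans (le_of_eq ?_), fun k => ?_⟩
    · rw [sum_range_succ']
      simp [add_comm]
    · have e : ∑ j ∈ range N, b (j + 1) * ∑ n ∈ B k, (d k n : ℂ) * u n ^ (j + 1) =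
          ∑ n ∈ B k, (d k n : ℂ) * (u n * ∑ j ∈ range N, b (j + 1) * u n ^ j) := by
        simp only [mul_sum]
        rw [sum_comm]
        exact sum_congr rfl fun n _ => sum_congr rfl fun j _ => by ring
      have g : ∀ n ∈ B k, d k n * ‖∑ j ∈ range (N + 1), b j * u n ^ j‖ ^ 2 ≤
          ‖b 0‖ ^ 2 * d k n + 2 * (conj (b 0) * ((d k n : ℂ) *
            (u n * ∑ j ∈ range N, b (j + 1) * u n ^ j))).re +
          R k ^ 2 * (d k n * ‖∑ j ∈ range N, b (j + 1) * u n ^ j‖ ^ 2) := fun n hn => by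
        rw [poly_succ, nsq, mul_left_comm (conj (b 0)) (d k n : ℂ), re_ofReal_mul, norm_mul,
          mul_pow]
        have := mul_le_mul_of_nonneg_right (pow_le_pow_left₀ (norm_nonneg _) (hu k n hn) 2)
          (mul_nonneg (hd k n hn) (sq_nonneg ‖∑ j ∈ range N, b (j + 1) * u n ^ j‖))
        linarith
      refine (sum_le_sum g).trans ?_
      rw [sum_add_distrib, sum_add_distrib, ← mul_sum, ← mul_sum, ← mul_sum, h1, mul_one,
        ← re_sum, ← mul_sum, ← e]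
      have := mul_le_mul_of_nonneg_left (s2 k) (sq_nonneg (R k))
      simp only [Function.comp]
      linarith

theorem parseval {r : ℝ} (hr : r ∈ Set.Ioo (0 : ℝ) 1) (N : ℕ) : ∀ b : ℕ → ℂ,
    (∑ j ∈ range N, ‖b j‖ ^ 2) * (r ^ 2) ^ N ≤
      mean 2 (fun z => ∑ j ∈ range N, b j * z ^ j) r := by
  induction N with
  | zero => exact fun b => by simpa using mean_nonneg 2 _ r
  | succ N ih =>
    intro b
    have a1 := ih fun j => b (j + 1)
    obtain ⟨-, a2⟩ := avg_eq (G := fun z => ((‖b 0‖ ^ 2 : ℝ) : ℂ) +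
        ((2 : ℝ) : ℂ) * (conj (b 0) * (z * ∑ j ∈ range N, b (j + 1) * z ^ j)))
      (H := fun z => ∑ j ∈ range N, b (j + 1) * z ^ j) (by fun_prop) (by fun_prop) (r ^ 2) hr
    have a3 : mean 2 (fun z => ∑ j ∈ range (N + 1), b j * z ^ j) r = _ :=
      (Real.circleAverage_congr_sphere fun z hz => by
        have hz' : ‖z‖ = r := by rw [mem_sphere_zero_iff_norm.1 hz, abs_of_pos hr.1]
        simp only
        rw [poly_succ, Real.rpow_two, Real.rpow_two, nsq, norm_mul, mul_pow, hz', add_re,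
          ofReal_re, re_ofReal_mul, smul_eq_mul]).trans a2
    rw [a3, zero_mul, mul_zero, mul_zero, add_zero, ofReal_re, sum_range_succ', pow_succ (r ^ 2)]
    have r1 : r ^ 2 ≤ 1 := pow_le_one₀ hr.1.le hr.2.le
    have r2 : (r ^ 2) ^ N * r ^ 2 ≤ 1 :=
      mul_le_one₀ (pow_le_one₀ (sq_nonneg r) r1) (sq_nonneg r) r1
    have r3 := mul_le_mul_of_nonneg_left r2 (sq_nonneg ‖b 0‖)
    have r4 := mul_le_mul_of_nonneg_left a1 (sq_nonneg r)
    linarith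

theorem coef_le (g : Hp 2 one_le_two) (N : ℕ) (b : ℕ → ℂ)
    (hg : ∀ z ∈ ball (0 : ℂ) 1, (g : ℂ → ℂ) z = ∑ j ∈ range N, b j * z ^ j) :
    ∑ j ∈ range N, ‖b j‖ ^ 2 ≤ hq 2 one_le_two g ^ 2 := by
  have t : Tendsto (fun r : ℝ => (∑ j ∈ range N, ‖b j‖ ^ 2) * (r ^ 2) ^ N) (𝓝[<] 1)
      (𝓝 ((∑ j ∈ range N, ‖b j‖ ^ 2) * ((1 : ℝ) ^ 2) ^ N)) :=
    (Continuous.tendsto (by fun_prop) 1).mono_left nhdsWithin_le_nhds
  rw [one_pow, one_pow, mul_one] at t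
  refine le_of_tendsto t ?_
  filter_upwards [Ioo_mem_nhdsLT (zero_lt_one' ℝ)] with r hr
  have a2 := mean_le_of_hardyNorm two_pos g.2.1.continuousOn g.2.2 hr
  rw [← hq_apply, Real.rpow_two] at a2
  refine (parseval hr N b).trans (le_trans (le_of_eq ?_) a2)
  exact Real.circleAverage_congr_sphere fun z hz => by
    simp only
    rw [hg z (sphere_sub_ball (abs_lt_one_of_mem hr) hz)]

end Pool.Agent.FS.Uncond459
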