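import Pool.Agent.FS.Uncond459.A
import Pool.Agent.FS.Uncond459.C

/-! Points with prescribed moduli whose kernels give unconditional expansions. -/

namespace Pool.Agent.FS.Uncond459

open Pool.Agent.Lib.MP_459ac8_an Pool.Agent.Lib.MP_459ac8_an.Y42
open scoped ENNReal Real Topology ComplexConjugate
open MeasureTheory Metric Complex Filter Finset

theorem blocks {Λ : ℕ → ℂ} (hΛ : ∀ n, ‖Λ n‖ < 1) {t0 : ℝ} (ht0 : 0 < t0) (h0 : ∀ n, t0 ≤ ‖Λ n‖)
    {b : ℕ → ℕ} (hb : StrictMono b) (d : ℕ → ℕ → ℝ) (R : ℕ → ℝ)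
    (hd : ∀ k, ∀ n ∈ Ico (b k) (b (k + 1)), 0 ≤ d k n)
    (h1 : ∀ k, ∑ n ∈ Ico (b k) (b (k + 1)), d k n = 1)
    (hu : ∀ k, ∀ n ∈ Ico (b k) (b (k + 1)), ‖(conj (Λ n))⁻¹‖ ≤ R k) (hR : Tendsto R atTop (𝓝 1))
    (hm : ∀ l, Tendsto (fun k => ∑ n ∈ Ico (b k) (b (k + 1)),
      (d k n : ℂ) * (conj (Λ n))⁻¹ ^ (l + 1)) atTop (𝓝 0))
    (hκ : Tendsto (fun k => hq 2 one_le_two (one 2 one_le_two -
      ∑ n ∈ Ico (b k) (b (k + 1)), (d k n : ℂ) • kr hΛ 2 one_le_two n)) atTop (𝓝 0))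
    (h : Hp 2 one_le_two) (ε : ℝ) (hε : 0 < ε) (N₀ : ℕ) : ∃ (N₁ : ℕ) (c : ℕ → ℂ), N₀ < N₁ ∧
      hq 2 one_le_two (h - ∑ n ∈ Ico N₀ N₁, c n • kr hΛ 2 one_le_two n) ≤ ε ∧
      ∀ E ⊆ Ico N₀ N₁, hq 2 one_le_two (∑ n ∈ E, c n • kr hΛ 2 one_le_two n) ≤
        8 * hq 2 one_le_two h + ε := by
  classical
  have hmon : ∀ j : ℕ, ∃ g : Hp 2 one_le_two, (∀ z ∈ ball (0 : ℂ) 1, (g : ℂ → ℂ) z = z ^ j) ∧
      Tendsto (fun k => hq 2 one_le_two (g - ∑ n ∈ Ico (b k) (b (k + 1)),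
        ((d k n : ℂ) * (conj (Λ n))⁻¹ ^ j) • kr hΛ 2 one_le_two n)) atTop (𝓝 0) := fun j => by
    induction j with
    | zero => exact ⟨one 2 one_le_two, fun z hz => by rw [one_apply _ hz, pow_zero],
        by simpa only [pow_zero, mul_one] using hκ⟩
    | succ j ih =>
      obtain ⟨g, g1, g2⟩ := ih
      refine ⟨shift 2 one_le_two g, fun z hz => by rw [shift_apply, g1 z hz, pow_succ'], ?_⟩
      have t1 := g2.add ((hm j).norm.mul_const (hq 2 one_le_two (one 2 one_le_two)))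
      rw [norm_zero, zero_mul, add_zero] at t1
      refine squeeze_zero (fun k => apply_nonneg _ _) (fun k => ?_) t1
      have e : ∑ n ∈ Ico (b k) (b (k + 1)),
          ((d k n : ℂ) * (conj (Λ n))⁻¹ ^ (j + 1)) • kr hΛ 2 one_le_two n =
          shift 2 one_le_two (∑ n ∈ Ico (b k) (b (k + 1)),
            ((d k n : ℂ) * (conj (Λ n))⁻¹ ^ j) • kr hΛ 2 one_le_two n) +
          (∑ n ∈ Ico (b k) (b (k + 1)), (d k n : ℂ) * (conj (Λ n))⁻¹ ^ (j + 1)) •
            one 2 one_le_two := by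
        rw [map_sum, sum_smul, ← sum_add_distrib]
        refine sum_congr rfl fun n _ => ?_
        rw [map_smul, shift_kr hΛ _ n (norm_pos_iff.1 (ht0.trans_le (h0 n))), smul_smul, smul_sub,
          mul_assoc, ← pow_succ, sub_add_cancel]
      rw [e, ← sub_sub, ← map_sub]
      refine (map_sub_le_add _ _ _).trans ?_
      rw [map_smul_eq_mul]
      exact add_le_add (hq_shift_le _ _) le_rfl
  choose g g1 g2 using hmon
  have hε' : 0 < ε / 8 := by positivity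
  obtain ⟨N, a, hp⟩ := exists_poly one_lt_two h.2.1 h.2.2 hε'
  have hG : ∀ z ∈ ball (0 : ℂ) 1, ((∑ j ∈ range N, a j • g j : Hp 2 one_le_two) : ℂ → ℂ) z =
      ∑ j ∈ range N, a j * z ^ j := fun z hz => by
    rw [Submodule.coe_sum, Finset.sum_apply]
    exact sum_congr rfl fun j _ => by
      rw [Submodule.coe_smul, Pi.smul_apply, g1 j z hz, smul_eq_mul]
  have p1 : hq 2 one_le_two (h - ∑ j ∈ range N, a j • g j) ≤ ε / 8 :=
    hq_le _ _ hε'.le (le_trans (hardyNorm_mono two_pos fun z hz => le_of_eq (by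
      rw [Submodule.coe_sub, Pi.sub_apply, hG z hz])) hp)
  have p2 := map_sub_le_add (hq 2 one_le_two) h (h - ∑ j ∈ range N, a j • g j)
  rw [sub_sub_cancel] at p2
  have p3 := (coef_le _ N a hG).trans
    (pow_le_pow_left₀ (apply_nonneg _ _) (p2.trans (add_le_add le_rfl p1)) 2)
  obtain ⟨s, s1, s2⟩ := sq_bound _ d (fun n => (conj (Λ n))⁻¹) R hd h1 hu hR hm N a
  obtain ⟨τ, hτ⟩ : ∃ τ : ℝ, ∀ n, ‖∑ j ∈ range N, a j * (conj (Λ n))⁻¹ ^ j‖ ≤ τ :=
    ⟨∑ j ∈ range N, ‖a j‖ * t0⁻¹ ^ j, fun n => (norm_sum_le _ _).trans (sum_le_sum fun j _ => by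
      rw [norm_mul, norm_pow, norm_inv, Complex.norm_conj]
      exact mul_le_mul_of_nonneg_left
        (pow_le_pow_left₀ (by positivity) (inv_anti₀ ht0 (h0 n)) j) (norm_nonneg _))⟩
  have hτ0 : 0 ≤ τ := (norm_nonneg _).trans (hτ 0)
  obtain ⟨δ, hδ, hδ'⟩ : ∃ δ : ℝ, 0 < δ ∧ 2 * τ ^ 2 * δ ≤ (ε / 8) ^ 2 := by
    refine ⟨(ε / 8) ^ 2 / (2 * τ ^ 2 + 1), by positivity, ?_⟩
    rw [← mul_div_assoc, div_le_iff₀ (by positivity)]
    nlinarith [sq_nonneg (ε / 8)]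
  have t1 := (s1.const_mul 2).add ((hκ.pow 2).const_mul (2 * τ ^ 2 * (1 + 1 / δ)))
  have t2 := tendsto_finsetSum (range N) fun j _ => (g2 j).const_mul ‖a j‖
  simp only [mul_zero, sum_const_zero] at t2
  have v1 := t1.eventually (gt_mem_nhds (show _ < 2 * ∑ j ∈ range N, ‖a j‖ ^ 2 + (ε / 8) ^ 2 by
    rw [zero_pow two_ne_zero, mul_zero]
    exact add_lt_add_right (by positivity) _))
  obtain ⟨k, k1, k2, k3⟩ := (v1.and ((t2.eventually (gt_mem_nhds hε')).and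
    (hb.tendsto_atTop.eventually_ge_atTop N₀))).exists
  refine ⟨b (k + 1), fun n => if n ∈ Ico (b k) (b (k + 1)) then
    (d k n : ℂ) * ∑ j ∈ range N, a j * (conj (Λ n))⁻¹ ^ j else 0,
    k3.trans_lt (hb (Nat.lt_succ_self k)), ?_, fun E _ => ?_⟩
  · simp only [ite_smul, zero_smul, sum_ite_mem]
    rw [inter_eq_right.2 (Ico_subset_Ico_left k3)]
    have e : ∑ j ∈ range N, a j • g j - ∑ n ∈ Ico (b k) (b (k + 1)),
        ((d k n : ℂ) * ∑ j ∈ range N, a j * (conj (Λ n))⁻¹ ^ j) • kr hΛ 2 one_le_two n =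
        ∑ j ∈ range N, a j • (g j - ∑ n ∈ Ico (b k) (b (k + 1)),
          ((d k n : ℂ) * (conj (Λ n))⁻¹ ^ j) • kr hΛ 2 one_le_two n) := by
      simp only [smul_sub, sum_sub_distrib, smul_sum, mul_sum, sum_smul, smul_smul]
      rw [sum_comm]
      exact congrArg _ (sum_congr rfl fun j _ => sum_congr rfl fun n _ => by rw [mul_left_comm])
    rw [← sub_add_sub_cancel h (∑ j ∈ range N, a j • g j), e]
    refine (map_add_le_add _ _ _).trans ?_
    have := (Finset.le_sum_of_subadditive (hq 2 one_le_two) (map_zero _).le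
      (map_add_le_add _) (range N) fun j => a j • (g j - ∑ n ∈ Ico (b k) (b (k + 1)),
        ((d k n : ℂ) * (conj (Λ n))⁻¹ ^ j) • kr hΛ 2 one_le_two n))
    simp only [map_smul_eq_mul] at this
    linarith
  · have a1 := bes hΛ (Ico (b k) (b (k + 1))) (d k)
      (fun n => if n ∈ E then ∑ j ∈ range N, a j * (conj (Λ n))⁻¹ ^ j else 0) (hd k) (τ := τ)
      (fun n _ => by split_ifs; exacts [hτ n, norm_zero.trans_le hτ0]) hδ (S := s k)
      (le_trans (sum_le_sum fun n hn => mul_le_mul_of_nonneg_left (by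
        split_ifs
        · exact le_rfl
        · rw [norm_zero, zero_pow two_ne_zero]
          exact sq_nonneg _) (hd k n hn)) (s2 k)) le_rfl
    simp only [mul_ite, mul_zero, ite_smul, zero_smul, sum_ite_mem] at a1 ⊢
    rw [inter_comm]
    refine a1.trans ?_
    have q0 := apply_nonneg (hq 2 one_le_two) h
    have a2 : √(2 * s k + 2 * τ ^ 2 * δ + 2 * τ ^ 2 * (1 + 1 / δ) * hq 2 one_le_two
        (one 2 one_le_two - ∑ n ∈ Ico (b k) (b (k + 1)), (d k n : ℂ) • kr hΛ 2 one_le_two n) ^ 2)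
        ≤ 2 * hq 2 one_le_two h + 2 * (ε / 8) :=
      Real.sqrt_le_iff.2 ⟨by positivity, by nlinarith [mul_nonneg q0 hε'.le]⟩
    linarith

theorem exists_unc {r : ℕ → ℝ} (hm : Monotone r) (h0 : 0 < r 0) (h1 : ∀ n, r n < 1)
    (hl : Tendsto r atTop (𝓝 1)) (hs : ¬ Summable fun n => 1 - r n) :
    ∃ Λ : ℕ → ℂ, Function.Injective Λ ∧ (∀ n, ‖Λ n‖ = r n) ∧
      ∀ f : ℂ → ℂ, DifferentiableOn ℂ f (ball 0 1) → hardyNorm 2 f < ⊤ → ∃ c : ℕ → ℂ,
        Tendsto (fun E : Finset ℕ => hardyNorm 2 fun z =>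
          f z - ∑ n ∈ E, c n * (1 / (1 - conj (Λ n) * z))) atTop (𝓝 0) := by
  have hpi := Real.pi_pos
  obtain ⟨b, θ, η, Λ, hb, hinj, hn, hη, hT, hc⟩ := exists_points hm h0 h1 hl hs
  refine ⟨Λ, hinj, hn, fun f hf hN => ?_⟩
  have hΛ : ∀ n, ‖Λ n‖ < 1 := fun n => (hn n).trans_lt (h1 n)
  have g3 : (2 * π : ℂ) ≠ 0 := mul_ne_zero two_ne_zero (ofReal_ne_zero.2 hpi.ne')
  have h2 : ‖(2 * π : ℂ)⁻¹‖ = (2 * π)⁻¹ := by
    rw [norm_inv, norm_mul, Complex.norm_two, Complex.norm_real, Real.norm_of_nonneg hpi.le]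
  have cast : ∀ x : ℝ, (((2 * π)⁻¹ * x : ℝ) : ℂ) = (2 * π : ℂ)⁻¹ * x := fun x => by
    push_cast; rfl
  have hR : Tendsto (fun k => (r (b k))⁻¹) atTop (𝓝 1) := by
    simpa using (hl.comp hb.tendsto_atTop).inv₀ one_ne_zero
  obtain ⟨c, hc⟩ := exists_uncond (by norm_num) (blocks hΛ h0
    (fun n => (hm (Nat.zero_le _)).trans (hn _).ge) hb
    (fun k n => (2 * π)⁻¹ * (θ k (n + 1) - θ k n)) (fun k => (r (b k))⁻¹)
    (fun k n hn => mul_nonneg (by positivity) ((hT k).up n hn))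
    (fun k => by rw [← mul_sum, (hT k).total, inv_mul_cancel₀ (by positivity)])
    (fun k n hk => by
      rw [norm_inv, Complex.norm_conj, hn]
      exact inv_anti₀ ((hT k).pos _) (hm (mem_Ico.1 hk).1)) hR
    (fun l => by
      have t1 := hη.const_mul ((l + 1 : ℕ) : ℝ)
      have t2 := t1.add ((hR.pow (l + 1)).sub_const 1)
      rw [mul_zero] at t1
      rw [mul_zero, one_pow, sub_self, add_zero] at t2
      refine squeeze_zero_norm' ?_ t2
      filter_upwards [t1.eventually (gt_mem_nhds one_pos)] with k hk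
      have a1 := mom (hT k) (Nat.le_add_left 1 l) hk.le
      rw [sum_congr rfl fun n hn => by rw [cast, hc k n hn, mul_assoc], ← mul_sum, norm_mul, h2,
        inv_mul_le_iff₀ (by positivity)]
      exact a1)
    (by
      have t1 : Tendsto (fun k => 1 - r (b k)) atTop (𝓝 0) := by
        simpa using (hl.comp hb.tendsto_atTop).const_sub 1
      have t2 := ((t1.rpow_const_nhds_zero (show 0 < 1 / (2 * (2 : ℝ)) by positivity)).const_mul
        (32 * 2)).add (hη.const_mul (12 * π))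
      rw [mul_zero, mul_zero, add_zero] at t2
      refine squeeze_zero (fun k => apply_nonneg _ _) (fun k => ?_) t2
      have g1 := (hT k).nn
      have g2 : 0 ≤ 1 - r (b k) := by linarith [h1 (b k)]
      refine hq_le _ _ (by positivity) (le_trans (hardyNorm_mono two_pos fun z hz => ?_)
        ((hT k).approx one_le_two))
      rw [Submodule.coe_sub, Pi.sub_apply, sum_kr hΛ _ _ _ hz, one_apply _ hz,
        sum_congr rfl fun n hn => by rw [cast, hc k n hn, mul_assoc], ← mul_sum]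
      change ‖1 - (2 * π : ℂ)⁻¹ * ks r (θ k) (Ico (b k) (b (k + 1))) z‖ ≤ _
      have g4 : (2 * π)⁻¹ ≤ (1 : ℝ) := inv_le_one_of_one_le₀ (by linarith [Real.pi_gt_three])
      rw [← inv_mul_cancel₀ g3, ← mul_sub, norm_mul, norm_sub_rev, h2]
      exact mul_le_of_le_one_left (norm_nonneg _) g4)) ⟨f, hf, hN⟩
  refine ⟨c, ENNReal.tendsto_nhds_zero.2 fun ε hε => ?_⟩
  rcases eq_or_ne ε ⊤ with rfl | hne
  · exact Eventually.of_forall fun _ => le_top
  obtain ⟨F, hF⟩ := hc ε.toReal (ENNReal.toReal_pos hε.ne' hne)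
  filter_upwards [eventually_ge_atTop F] with E hE
  have a1 := ENNReal.ofReal_le_ofReal (hF E hE)
  rw [hq_apply, ENNReal.ofReal_toReal (Subtype.property _ : _ ∈ Hp 2 one_le_two).2.ne,
    ENNReal.ofReal_toReal hne] at a1
  refine le_trans (hardyNorm_mono two_pos fun z hz => le_of_eq ?_) a1
  rw [Submodule.coe_sub, Pi.sub_apply, sum_kr hΛ _ _ _ hz]
  simp only [one_div]

end Pool.Agent.FS.Uncond459
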